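import Pool.Agent.K.MP_23c5a6_pr.C0

namespace Pool.Agent.Results.MP_23c5a6_pr.AllExtremal

open Pool.Agent.P.MP_23c5a6_pr MeasureTheory

theorem result (d : ℕ) (h2 : 2 ≤ d) (h7 : d ≤ 7) (S : Set ℤ) (hS : S = {0} ∨ S = {0, 1}) :
    (∃ μ : Measure (List (Fin d) → ℤ), IsLocalLimit d S μ) ∧
      ∀ μ : Measure (List (Fin d) → ℤ), IsLocalLimit d S μ → IsExtremalGibbs μ := by
  have : ∃ c : ℕ, c ≤ 1 ∧ S = Set.Icc (0 : ℤ) c := by
    rcases hS with rfl | rfl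
    · exact ⟨0, by norm_num, by simp⟩
    · refine ⟨1, le_rfl, ?_⟩
      ext i; simp only [Set.mem_insert_iff, Set.mem_singleton_iff, Set.mem_Icc]; omega
  obtain ⟨c, hc, rfl⟩ := this
  obtain ⟨μ, h1, h3⟩ := main hc h2 h7
  exact ⟨⟨μ, h1⟩, fun ν hν => limit_unique h1 hν ▸ h3⟩

end Pool.Agent.Results.MP_23c5a6_pr.AllExtremal
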